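import Pool.Agent.W251.GX.Defs

/-!
Project GX (helper251), part 2: pairs `v, w` of determinant one for which `F w` is different from an
ARBITRARY function of `v`. Definitions and statements.
-/

set_option autoImplicit false

namespace Pool.Agent.W251.GX

open Finset Filter
open Pool.Agent.W78.GA (Qd nm prim dt ip ball pball edge dedge)
open Pool.Agent.W84.FP (Gi cj)

open scoped Classical in
/-- the pairs `v, w` of determinant one, norms at most `X`, `ip v w` positive, with `R v w` -/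
noncomputable def EG (R : Gi → Gi → Prop) (X : ℝ) : Finset (Gi × Gi) :=
  (dedge 0 1 X).filter (fun e => 0 < ip e.1 e.2 ∧ R e.1 e.2)

/-- HITG: local geometry for a general function `F` and an arbitrary function `β` -/
def S_HITG : Prop := ∀ (N : ℕ) (F : Gi → ℂ), Cm N F → ∀ β : Gi → ℂ, ∃ C₀ : ℝ, ∀ X : ℝ, C₀ ≤ X →
  ∀ a b : ℂ, a ≠ b → HitAB F a b X (Bs (EG (fun v w => F w ≠ β v) X) C₀)

/-- a positive proportion of the pairs of determinant one satisfies `R` -/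
def PosG (R : Gi → Gi → Prop) : Prop := ∃ κ : ℝ, 0 < κ ∧ ∃ X₀ : ℝ, ∀ X : ℝ, X₀ ≤ X →
  κ * X ≤ ((EG R X).card : ℝ)

/-- BSCG: the set `Bs` does not contain `0` and is not much larger than `E` -/
def S_BSCG : Prop := ∀ (R : Gi → Gi → Prop) (C : ℝ), (∀ X : ℝ, (0 : Gi) ∉ Bs (EG R X) C) ∧
  ((∃ ε : ℝ, 0 < ε ∧ ∃ X₀ : ℝ, ∀ X : ℝ, X₀ ≤ X → ε * X ≤ ((Bs (EG R X) C).card : ℝ)) → PosG R)

/-- the conclusion for the integers -/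
def ConG (R : Gi → Gi → Prop) : Prop := ∃ S : ℕ,
  (∀ ε : ℝ, 0 < ε → ∃ N₀ : ℕ, ∀ N : ℕ, N₀ ≤ N → (N : ℝ) / Real.log N ^ (2 * Real.log 2 + ε) ≤
    (Set.ncard {n : ℕ | 1 ≤ n ∧ n ≤ N ∧ (∀ k : ℕ, k ^ 2 ∣ n ^ 2 + 1 → k ≤ S) ∧
      ∃ v w : Gi, dt v w = 1 ∧ ip v w = n ∧ R v w ∧ nm v ≤ S * n ∧ nm w ≤ S * n} : ℝ)) ∧
  ∃ κ : ℝ, 0 < κ ∧ ∃ N₀ : ℕ, ∀ N : ℕ, N₀ ≤ N → κ * N ≤
    (Set.ncard {p : ℕ × ℕ | 1 ≤ p.1 ∧ p.1 ≤ N ∧ 1 ≤ p.2 ∧ p.2 ≤ N ∧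
      (∀ k : ℕ, k ^ 2 ∣ p.1 * p.2 → k ≤ S) ∧
      ∃ v w : Gi, dt v w = 1 ∧ 0 < ip v w ∧ R v w ∧ nm v = p.1 ∧ nm w = p.2} : ℝ)

/-- FING: from pairs to integers -/
def S_FING : Prop := ∀ R : Gi → Gi → Prop, PosG R → ConG R

end Pool.Agent.W251.GX
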