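import Pool.Agent.W251.GX.Fin

/-!
Project GX (helper251): from functions on `GaussianInt` to functions on `Gi`.
-/

set_option autoImplicit false

namespace Pool.Agent.W251.GX

open Finset Filter
open Pool.Agent.W78.GA (Qd nm prim)
open Pool.Agent.W84.FP (Gi cj)

/-- the Gaussian integer with the same coordinates -/
def tog (z : Gi) : GaussianInt := ⟨z.re, z.im⟩

/-- the element of `Gi` with the same coordinates -/
def ofg (z : GaussianInt) : Gi := ⟨z.re, z.im⟩

lemma tog_ofg (z : GaussianInt) : tog (ofg z) = z := rfl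

lemma tog_mul (z w : Gi) : tog (z * w) = tog z * tog w := by
  unfold tog
  apply Zsqrtd.ext
  · simp [Zsqrtd.re_mul, QuadraticAlgebra.re_mul]
  · simp only [Zsqrtd.im_mul, QuadraticAlgebra.im_mul]
    ring

lemma tog_ne {z : Gi} (h : z ≠ 0) : tog z ≠ 0 := by
  intro h0
  apply h
  have h1 := congrArg Zsqrtd.re h0
  have h2 := congrArg Zsqrtd.im h0
  exact QuadraticAlgebra.ext h1 h2

open scoped Classical in
/-- the function on `Gi`, with value `1` at `0` -/
noncomputable def pull (F : GaussianInt → ℂ) (z : Gi) : ℂ := if z = 0 then 1 else F (tog z)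

lemma pull_cm {m : ℕ} (hm : 1 ≤ m) {F : GaussianInt → ℂ}
    (hF : ∀ z : GaussianInt, z ≠ 0 → F z ^ m = 1)
    (hmul : ∀ z w : GaussianInt, z ≠ 0 → w ≠ 0 → F (z * w) = F z * F w) : Cm m (pull F) where
  pos := hm
  mul := by
    classical
    intro z w hz hw
    have hzw : z * w ≠ 0 := by
      rw [← Pool.Agent.W78.GA.one_le_nm hD01, Pool.Agent.W78.GA.nm_mul]
      exact Nat.mul_pos (Pool.Agent.W78.GA.nm_pos hD01 hz) (Pool.Agent.W78.GA.nm_pos hD01 hw)
    unfold pull
    rw [if_neg hzw, if_neg hz, if_neg hw, tog_mul, hmul _ _ (tog_ne hz) (tog_ne hw)]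
  pow := by
    classical
    intro z
    unfold pull
    split_ifs with h
    · exact one_pow m
    · exact hF _ (tog_ne h)

lemma line_ne (n : ℤ) : (⟨n, 1⟩ : Gi) ≠ 0 := by
  intro h
  have := congrArg QuadraticAlgebra.im h
  simp at this

lemma pull_line (F : GaussianInt → ℂ) (n : ℤ) : pull F ⟨n, 1⟩ = F ⟨n, 1⟩ := by
  classical
  unfold pull
  rw [if_neg (line_ne n)]
  rfl

lemma pull_neg (F : GaussianInt → ℂ) (h : F (-1) = 1) : pull F (-1) = 1 := by
  classical
  unfold pull
  split_ifs with h0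
  · rfl
  · have : tog (-1) = -1 := by
      unfold tog
      apply Zsqrtd.ext <;> simp <;> rfl
    rw [this, h]

lemma pull_prim {F : GaussianInt → ℂ} (h : ∃ z : GaussianInt, IsCoprime z.re z.im ∧ F z ≠ 1) :
    ∃ u : Gi, prim u ∧ pull F u ≠ 1 := by
  classical
  obtain ⟨z, hz, hF⟩ := h
  refine ⟨ofg z, ?_, ?_⟩
  · show Int.gcd z.re z.im = 1
    exact Int.isCoprime_iff_gcd_eq_one.1 hz
  · have h0 : ofg z ≠ 0 := by
      intro h0
      have h1 : z.re = 0 := congrArg QuadraticAlgebra.re h0
      have h2 : z.im = 0 := congrArg QuadraticAlgebra.im h0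
      rw [h1, h2] at hz
      exact absurd hz (by simp [isCoprime_zero_left])
    unfold pull
    rw [if_neg h0, tog_ofg]
    exact hF

end Pool.Agent.W251.GX
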