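import Pool.Agent.W251.GX.All
import Pool.Agent.W251.GX.Tr
import Pool.Agent.W251.GX.Defs2
import Pool.Agent.W460.GX.HITG
import Pool.Agent.W683.GX.Fing

/-!
Project GX (helper251): all parts together, second version: factorisations `v w = n + i` for which
`F w` is different from an arbitrary function of `v`.
-/

set_option autoImplicit false

namespace Pool.Agent.W251.GX

open Finset Filter
open Pool.Agent.W78.GA (Qd nm prim dt ip)
open Pool.Agent.W84.FP (Gi cj)

/-- the general result for the Gaussian integers as a quadratic order -/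
theorem resG {N : ℕ} {F : Gi → ℂ} (hF : Cm N F) (hneg : F (-1) = 1)
    (hu : ∃ u : Gi, prim u ∧ F u ≠ 1) (β : Gi → ℂ) : ConG (fun v w => F w ≠ β v) := by
  have hD := hD01
  have hlat : Pool.Agent.W78.GA.S_LAT 0 1 := Pool.Agent.W45.GA.lat hD
  have hred : Pool.Agent.W78.GA.S_RED 0 1 := Pool.Agent.W322.GA.red hD
  have hlati : Pool.Agent.W78.GA.S_LATI 0 1 := Pool.Agent.W322.GA.lati_of hD hlat hred
  have hfin : S_FING := Pool.Agent.W683.GX.fing (Pool.Agent.W29.GA.mult hD)
    (Pool.Agent.W29.GA.typ_of hD hlat hlati) (Pool.Agent.W29.GA.ve hD) (Pool.Agent.W78.GA.sqb hD)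
    hlat
  apply hfin
  obtain ⟨C₀, h1⟩ := Pool.Agent.W460.GX.Hitg.hitg (Pool.Agent.W414.GX.betw hD01) N F hF β
  obtain ⟨ε, hε, X₀, h2⟩ := sca N F hF hneg hu
  obtain ⟨h3, h4⟩ := Pool.Agent.W683.GX.bscg hlat (fun v w => F w ≠ β v) C₀
  refine h4 ⟨ε, hε, max C₀ X₀, fun X hX => ?_⟩
  exact h2 X _ ((le_max_right _ _).trans hX) (h3 X)
    (fun a b hab => h1 X ((le_max_left _ _).trans hX) a b hab)

lemma tog_cj_mul {v w : Gi} {n : ℤ} (h1 : dt v w = 1) (h2 : ip v w = n) :
    tog (cj v) * tog w = ⟨n, 1⟩ := by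
  unfold dt at h1
  unfold ip at h2
  unfold tog cj
  apply Zsqrtd.ext
  · simp only [Zsqrtd.re_mul]
    linear_combination h2
  · simp only [Zsqrtd.im_mul]
    linear_combination h1

lemma tog_norm (v : Gi) : (tog v).norm = (nm v : ℤ) := by
  rw [Pool.Agent.W78.GA.nm_cast hD01]
  unfold tog Zsqrtd.norm
  ring

lemma tog_cj_norm (v : Gi) : (tog (cj v)).norm = (nm v : ℤ) := by
  rw [Pool.Agent.W78.GA.nm_cast hD01]
  unfold tog cj Zsqrtd.norm
  ring

lemma ne_zero_of_dt {v w : Gi} (h : dt v w = 1) : w ≠ 0 := by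
  rintro rfl
  unfold dt at h
  simp at h

lemma pull_ne (F : GaussianInt → ℂ) {w : Gi} (h : w ≠ 0) : pull F w = F (tog w) := by
  classical
  unfold pull
  rw [if_neg h]

end Pool.Agent.W251.GX
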