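import Pool.Agent.W84.FP.Defs

/-!
Project GX (helper251, plan of helper78): completely multiplicative functions `F` on a quadratic
order, with values in the roots of unity of order `N`, along the line `n + ω`; and the number of
prime factors of `n^2+1` modulo `3`. Definitions and statements.

`ps`, `DPG`, `bg`, `pball`, `cellM`, `mE`, `Ele`, `edge`, `dedge`, `dt`, `ip`, `nm` are those of
`W78/GA/Defs`; `Gi = Qd 0 1` and `cj` those of `W84/FP/Defs`.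
-/

set_option autoImplicit false

namespace Pool.Agent.W251.GX

open Finset Filter
open Pool.Agent.H376R2.MR (FK Fj)
open Pool.Agent.W78.GA (Qd nm prim bg dt ip lat cellM mE ps DPG ball pball edge dedge ang Ele)
open Pool.Agent.W84.FP (Gi cj)

/-! ### Part 1: the Matomaki-Radziwill theorem for `F`, all frequencies -/

section MR

variable {t c : ℤ}

/-- completely multiplicative functions whose values are `N`-th roots of unity -/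
structure Cm (N : ℕ) (F : Qd t c → ℂ) : Prop where
  pos : 1 ≤ N
  mul : ∀ z w : Qd t c, z ≠ 0 → w ≠ 0 → F (z * w) = F z * F w
  pow : ∀ z : Qd t c, F z ^ N = 1

/-- `∑_{z primitive} F(z) w(log(N z/Y))/N z (z/|z|)^k` -/
noncomputable def GF (F : Qd t c → ℂ) (Y : ℝ) (k : ℤ) : ℂ :=
  DPG (pball t c (Real.exp 1 * Y)) (fun z => F z * (bg Y z : ℂ)) k

/-- `- ∑_{m ∈ cell} F(ϖ_m) (ϖ_m/|ϖ_m|)^k / m` -/
noncomputable def PF (F : Qd t c → ℂ) (M : ℕ → Prop) (ϖ : ℕ → Qd t c) (H v : ℕ) (k : ℤ) : ℂ :=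
  -∑ m ∈ cellM M H v, F (ϖ m) * ps k (ϖ m) / (m : ℂ)

variable (t c)

/-- DEC: the decomposition -/
def S_DEC : Prop := ∀ (Ap Bp M : ℕ → Prop) (E : ℕ) (ρ : ℕ → ℤ) (ϖ : ℕ → Qd t c),
  Ele t c Ap Bp M E ρ ϖ → ∀ (N : ℕ) (F : Qd t c → ℂ), Cm N F →
  ∃ C : ℝ, 0 < C ∧ ∀ H v₀ v₁ : ℕ, 1 ≤ H → H ≤ v₀ →
    1 ≤ ∑ v ∈ Ico v₀ v₁, mE M H v → ∀ Y : ℝ, Real.exp (4 * (v₁ : ℝ) / H) ≤ Y →
    ∃ (s : Finset (Qd t c)) (f : Qd t c → ℂ), (∀ z ∈ s, prim z ∧ (nm z : ℝ) ≤ Real.exp 2 * Y) ∧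
      (∀ k : ℤ, GF F Y k = -(1 / ((∑ v ∈ Ico v₀ v₁, mE M H v : ℝ) : ℂ)) *
        ∑ v ∈ Ico v₀ v₁, PF F M ϖ H v k * GF F (Y * Real.exp (-((v : ℝ) / H))) k + DPG s f k) ∧
      Y * ∑ z ∈ s, ‖f z‖ ^ 2 ≤ C * (1 / (∑ v ∈ Ico v₀ v₁, mE M H v) + 1 / (H : ℝ) ^ 2)

/-- MOM0: the mean values of `GF`, uniformly in `F` -/
def S_MOM0 : Prop := ∃ C : ℝ, 0 < C ∧ ∀ F : Qd t c → ℂ, (∀ z, ‖F z‖ ≤ 1) →
  ∀ (K : ℕ) (Z : ℝ), 3 ≤ Z → 1 ≤ K → ∑ k ∈ FK K, ‖GF F Z k‖ ^ 2 ≤ C * (1 + (K : ℝ) / Z)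

/-- MOMP: the moments of `PF` -/
def S_MOMP : Prop := ∀ (Ap Bp M : ℕ → Prop) (E : ℕ) (ρ : ℕ → ℤ) (ϖ : ℕ → Qd t c),
  Ele t c Ap Bp M E ρ ϖ → ∀ F : Qd t c → ℂ, (∀ z, ‖F z‖ ≤ 1) →
  ∃ C : ℝ, 1 ≤ C ∧ ∀ H r ℓ K : ℕ, 1 ≤ H → 1 ≤ K → (K : ℝ) ≤ Real.exp ((r : ℝ) * ℓ / H) →
    ∑ k ∈ FK K, ‖PF F M ϖ H r k‖ ^ (2 * ℓ) ≤ C ^ (ℓ + 1) * (ℓ.factorial : ℝ) ^ 8

/-- MOM: mixed moments -/
def S_MOM : Prop := ∀ (Ap Bp M : ℕ → Prop) (E : ℕ) (ρ : ℕ → ℤ) (ϖ : ℕ → Qd t c),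
  Ele t c Ap Bp M E ρ ϖ → ∀ F : Qd t c → ℂ, (∀ z, ‖F z‖ ≤ 1) →
  ∃ C : ℝ, 1 ≤ C ∧ ∀ (H r ℓ K : ℕ) (Z : ℝ), 1 ≤ H → 3 ≤ Z → 1 ≤ K →
    (K : ℝ) ≤ Z * Real.exp ((r : ℝ) * ℓ / H) →
    ∑ k ∈ FK K, ‖PF F M ϖ H r k ^ ℓ * GF F Z k‖ ^ 2 ≤ C ^ (ℓ + 1) * (ℓ.factorial : ℝ) ^ 8

/-- CELL: the cells -/
def S_CELL : Prop := ∀ (Ap Bp M : ℕ → Prop) (E : ℕ) (ρ : ℕ → ℤ) (ϖ : ℕ → Qd t c),
  Ele t c Ap Bp M E ρ ϖ → ∀ (N : ℕ) (F : Qd t c → ℂ), Cm N F →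
  ∃ c' : ℝ, 0 < c' ∧ c' ≤ 1 ∧ ∃ Λ : ℕ, ∀ M' H : ℕ, 1 ≤ H →
    ∃ V₀ : ℕ, ∀ v₀ v₁ : ℕ, V₀ ≤ v₀ → Λ * v₀ ≤ v₁ → ∀ k : ℤ, k ≠ 0 →
    |(k : ℝ)| ≤ Real.exp (M' * (v₀ : ℝ) / H) →
    ∑ v ∈ Ico v₀ v₁, ‖PF F M ϖ H v k‖ ≤ (1 - c') * ∑ v ∈ Ico v₀ v₁, mE M H v

/-- MR: the Matomaki-Radziwill theorem for the angles in the order, for the function `F` -/
def S_MR : Prop := ∀ (N : ℕ) (F : Qd t c → ℂ), Cm N F → ∀ η : ℝ, 0 < η →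
  ∃ h : ℝ, 1 ≤ h ∧ ∃ Y₀ : ℝ, ∀ Y : ℝ, Y₀ ≤ Y → ∑ k ∈ (FK ⌊Y / h⌋₊).erase 0, ‖GF F Y k‖ ^ 2 ≤ η

end MR

/-! ### Part 2: the distribution of the values of `F` -/

section Dist

variable {t c : ℤ}

open scoped Classical in
/-- the indicator function of a property -/
noncomputable def ind (p : Qd t c → Prop) (z : Qd t c) : ℂ := if p z then 1 else 0

open scoped Classical in
/-- `∑ w(log(N z/Y))/N z` over the primitive elements with the property `p` -/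
noncomputable def mass (p : Qd t c → Prop) (Y : ℝ) : ℝ :=
  ∑ z ∈ pball t c (Real.exp 1 * Y), if p z then bg Y z else 0

variable (t c)

/-- MRI: the Matomaki-Radziwill theorem for the level sets of `F` -/
def S_MRI : Prop := ∀ (N : ℕ) (F : Qd t c → ℂ), Cm N F → ∀ η : ℝ, 0 < η →
  ∃ h : ℝ, 1 ≤ h ∧ ∃ Y₀ : ℝ, ∀ (Y : ℝ) (K : ℕ) (a : ℂ), Y₀ ≤ Y → (K : ℝ) ≤ Y / h →
    ∑ k ∈ (FK K).erase 0, ‖GF (ind (fun z => F z = a)) Y k‖ ^ 2 ≤ η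

/-- PAIR: pairs of close directions -/
def S_PAIR : Prop := ∀ u : Qd t c, u ≠ 0 → ∃ C : ℝ, 0 < C ∧ ∀ (X T : ℝ) (K : ℕ)
  (B : Finset (Qd t c)) (R : Qd t c → Qd t c → Prop), 1 ≤ X → 1 ≤ T → 1 ≤ K → 2 * T ≤ K →
  (0 : Qd t c) ∉ B →
  (∀ z z' : Qd t c, z ∈ pball t c X → z' ∈ pball t c X → R z z' → dt z (u * z') ≠ 0 ∧
    (0 < dt z (u * z') → ∃ q ∈ B, 0 ≤ dt z q ∧ 0 ≤ dt q (u * z')) ∧
    (dt z (u * z') < 0 → ∃ q ∈ B, 0 ≤ dt (u * z') q ∧ 0 ≤ dt q z)) →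
  (open scoped Classical in
    ∑ z ∈ pball t c X, ∑ z' ∈ pball t c X,
      (if R z z' then Fj K (ang z - ang (u * z')) else 0)) ≤
    C * (K * (T * X / K + 1) ^ 2 * (B.card : ℝ) + X ^ 2 / T + X * K / T ^ 2)

variable {t c}

/-- `B` meets every sector between an element `z` with `F z = a` and an element `z'` with
`F z' = b` -/
def HitAB (F : Qd t c → ℂ) (a b : ℂ) (X : ℝ) (B : Finset (Qd t c)) : Prop :=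
  ∀ z z' : Qd t c, z ∈ pball t c X → z' ∈ pball t c X → F z = a → F z' = b →
    (0 < dt z z' → ∃ q ∈ B, 0 ≤ dt z q ∧ 0 ≤ dt q z') ∧
    (0 < dt z' z → ∃ q ∈ B, 0 ≤ dt z' q ∧ 0 ≤ dt q z)

variable (t c)

/-- PD: a small set `B` can meet all sectors between the values `a` and `F u * b` only if the
product of the masses is small -/
def S_PD : Prop := ∀ (N : ℕ) (F : Qd t c → ℂ), Cm N F → F (-1) = 1 →
  ∀ (u : Qd t c) (L ε : ℝ), prim u → Real.exp 1 * nm u ≤ L → 0 < ε →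
  ∃ δ : ℝ, 0 < δ ∧ ∃ Y₀ : ℝ, ∀ (Y : ℝ) (B : Finset (Qd t c)) (a b : ℂ), Y₀ ≤ Y →
    (0 : Qd t c) ∉ B → (B.card : ℝ) ≤ δ * Y → a ≠ F u * b → HitAB F a (F u * b) (L * Y) B →
    mass (fun z => F z = a) Y * mass (fun z => F z = b ∧ prim (u * z)) Y ≤ ε

/-- BETW: between two primitive vectors with different values of a function `a` there is a pair of
consecutive primitive vectors with different values -/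
def S_BETW : Prop := ∀ (α : Type) (a : Qd t c → α) (X : ℝ) (z z' : Qd t c), z ∈ pball t c X →
  z' ∈ pball t c X → 0 < dt z z' → a z ≠ a z' → ∃ e ∈ edge t c X, a e.1 ≠ a e.2 ∧
    0 ≤ dt z e.1 ∧ 0 < dt z e.2 ∧ 0 < dt e.1 z' ∧ 0 ≤ dt e.2 z'

end Dist

/-! ### Part 3: the Gaussian integers -/

/-- A0U: many primitive elements remain primitive after multiplication by `u` -/
def S_A0U : Prop := ∀ u : Gi, prim u → ∃ c₀ : ℝ, 0 < c₀ ∧ ∃ Y₀ : ℝ, ∀ Y : ℝ, Y₀ ≤ Y →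
  c₀ ≤ mass (fun z : Gi => prim (u * z)) Y

/-- SCA: a set which meets all sectors between elements with different values of `F` is large -/
def S_SCA : Prop := ∀ (N : ℕ) (F : Gi → ℂ), Cm N F → F (-1) = 1 → (∃ u : Gi, prim u ∧ F u ≠ 1) →
  ∃ ε : ℝ, 0 < ε ∧ ∃ X₀ : ℝ, ∀ (X : ℝ) (B : Finset Gi), X₀ ≤ X → (0 : Gi) ∉ B →
    (∀ a b : ℂ, a ≠ b → HitAB F a b X B) → ε * X ≤ (B.card : ℝ)

/-- SCB: `F` of order `3`; a set which meets all sectors between two given values is large -/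
def S_SCB : Prop := ∀ F : Gi → ℂ, Cm 3 F → F (-1) = 1 →
  (∃ u : Gi, prim u ∧ F u ≠ 1 ∧ prim (u * u) ∧ ∀ z : Gi, prim (u * z) → prim (u * u * z)) →
  ∀ a b : ℂ, a ^ 3 = 1 → b ^ 3 = 1 → a ≠ b →
  ∃ ε : ℝ, 0 < ε ∧ ∃ X₀ : ℝ, ∀ (X : ℝ) (B : Finset Gi), X₀ ≤ X → (0 : Gi) ∉ B →
    HitAB F a b X B → ε * X ≤ (B.card : ℝ)

open scoped Classical in
/-- the pairs `v, w` of determinant one, norms at most `X`, `ip v w` positive with the property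
`P` -/
noncomputable def EA (P : ℤ → Prop) (X : ℝ) : Finset (Gi × Gi) :=
  (dedge 0 1 X).filter (fun e => 0 < ip e.1 e.2 ∧ P (ip e.1 e.2))

open scoped Classical in
/-- the members, sums and differences of the pairs in `E`, with both signs, and all elements of norm
at most `C` -/
noncomputable def Bs (E : Finset (Gi × Gi)) (C : ℝ) : Finset Gi :=
  (E.biUnion fun e => {e.1, -e.1, e.2, -e.2, e.1 + e.2, -(e.1 + e.2), e.1 - e.2, -(e.1 - e.2)}) ∪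
    ball 0 1 C

/-- HITA: local geometry for a general function `F` -/
def S_HITA : Prop := ∀ (N : ℕ) (F : Gi → ℂ), Cm N F → ∀ s : ℂ, ∃ C₀ : ℝ, ∀ X : ℝ, C₀ ≤ X →
  ∀ a b : ℂ, a ≠ b → HitAB F a b X (Bs (EA (fun n => F ⟨n, 1⟩ ≠ s) X) C₀)

/-- HITB: local geometry for additive functions modulo `3` -/
def S_HITB : Prop := ∀ (h : ℕ → ZMod 3), (∀ m n : ℕ, m ≠ 0 → n ≠ 0 → h (m * n) = h m + h n) →
  ∀ r : ZMod 3, ∃ C₀ : ℝ, ∀ X : ℝ, C₀ ≤ X → ∀ z z' : Gi, z ∈ pball 0 1 X → z' ∈ pball 0 1 X →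
    h (nm z) + r = 1 → h (nm z') + r = 2 →
    (0 < dt z z' → ∃ q ∈ Bs (EA (fun n => h (n ^ 2 + 1).natAbs = r) X) C₀,
      0 ≤ dt z q ∧ 0 ≤ dt q z') ∧
    (0 < dt z' z → ∃ q ∈ Bs (EA (fun n => h (n ^ 2 + 1).natAbs = r) X) C₀,
      0 ≤ dt z' q ∧ 0 ≤ dt q z)

/-- a positive proportion of the pairs of determinant one has the property `P` -/
def Pos (P : ℤ → Prop) : Prop := ∃ κ : ℝ, 0 < κ ∧ ∃ X₀ : ℝ, ∀ X : ℝ, X₀ ≤ X →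
  κ * X ≤ ((EA P X).card : ℝ)

/-- BSC: the set `Bs` does not contain `0` and is not much larger than `E` -/
def S_BSC : Prop := ∀ (P : ℤ → Prop) (C : ℝ), (∀ X : ℝ, (0 : Gi) ∉ Bs (EA P X) C) ∧
  ((∃ ε : ℝ, 0 < ε ∧ ∃ X₀ : ℝ, ∀ X : ℝ, X₀ ≤ X → ε * X ≤ ((Bs (EA P X) C).card : ℝ)) → Pos P)

/-- UB: a Gaussian prime of norm `p` -/
def S_UB : Prop := ∀ p : ℕ, p.Prime → p % 4 = 1 → ∃ u : Gi, prim u ∧ nm u = p ∧ prim (u * u) ∧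
  ∀ z : Gi, prim (u * z) → prim (u * u * z)

/-- the conclusion for the integers -/
def Con (P : ℤ → Prop) : Prop := ∃ S : ℕ,
  (∀ ε : ℝ, 0 < ε → ∃ N₀ : ℕ, ∀ N : ℕ, N₀ ≤ N → (N : ℝ) / Real.log N ^ (2 * Real.log 2 + ε) ≤
    (Set.ncard {n : ℕ | 1 ≤ n ∧ n ≤ N ∧ P n ∧ ∀ k : ℕ, k ^ 2 ∣ n ^ 2 + 1 → k ≤ S} : ℝ)) ∧
  ∃ κ : ℝ, 0 < κ ∧ ∃ N₀ : ℕ, ∀ N : ℕ, N₀ ≤ N → κ * N ≤
    (Set.ncard {p : ℕ × ℕ | 1 ≤ p.1 ∧ p.1 ≤ N ∧ 1 ≤ p.2 ∧ p.2 ≤ N ∧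
      (∃ n : ℕ, 1 ≤ n ∧ P n ∧ p.1 * p.2 = n ^ 2 + 1) ∧
      ∀ k : ℕ, k ^ 2 ∣ p.1 * p.2 → k ≤ S} : ℝ)

/-- FIN: from pairs to integers -/
def S_FIN : Prop := ∀ P : ℤ → Prop, Pos P → Con P

end Pool.Agent.W251.GX
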