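import Pool.Agent.W251.GX.MR

/-!
Project GX (helper251): the final steps, from the statements of `GX/Defs` to the results.
-/

set_option autoImplicit false

namespace Pool.Agent.W251.GX

open Finset Filter
open Pool.Agent.W78.GA (Qd nm prim nm_mul nm_one nm_neg nm_pos one_le_nm pball)
open Pool.Agent.W84.FP (Gi cj)

lemma hD01 : (0 : ℤ) ^ 2 < 4 * 1 := by norm_num

/-- result A: `F(n + i)` is not nearly constant -/
theorem fina (hsca : S_SCA) (hhit : S_HITA) (hbsc : S_BSC) (hfin : S_FIN) {N : ℕ} {F : Gi → ℂ}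
    (hF : Cm N F) (hneg : F (-1) = 1) (hu : ∃ u : Gi, prim u ∧ F u ≠ 1) (s : ℂ) :
    Con (fun n => F ⟨n, 1⟩ ≠ s) := by
  apply hfin
  obtain ⟨C₀, h1⟩ := hhit N F hF s
  obtain ⟨ε, hε, X₀, h2⟩ := hsca N F hF hneg hu
  obtain ⟨h3, h4⟩ := hbsc (fun n => F ⟨n, 1⟩ ≠ s) C₀
  refine h4 ⟨ε, hε, max C₀ X₀, fun X hX => ?_⟩
  exact h2 X _ ((le_max_right _ _).trans hX) (h3 X)
    (fun a b hab => h1 X ((le_max_left _ _).trans hX) a b hab)

/-! ### The function of order three -/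

/-- a primitive cube root of unity -/
noncomputable def z3 : ℂ := Complex.exp (2 * Real.pi * Complex.I / ((3 : ℕ) : ℂ))

lemma z3_prim : IsPrimitiveRoot z3 3 := Complex.isPrimitiveRoot_exp 3 (by norm_num)

/-- the character of `ZMod 3` -/
noncomputable def ch (a : ZMod 3) : ℂ := z3 ^ a.val

lemma ch_add (a b : ZMod 3) : ch (a + b) = ch a * ch b := by
  unfold ch
  rw [← pow_add, ZMod.val_add]
  rw [← pow_mod_orderOf z3 (a.val + b.val), ← z3_prim.eq_orderOf]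

lemma ch_pow (a : ZMod 3) : ch a ^ 3 = 1 := by
  unfold ch
  rw [← pow_mul, mul_comm, pow_mul, z3_prim.pow_eq_one, one_pow]

lemma ch_inj {a b : ZMod 3} (h : ch a = ch b) : a = b := by
  unfold ch at h
  exact ZMod.val_injective 3 (z3_prim.pow_inj (ZMod.val_lt a) (ZMod.val_lt b) h)

lemma ch_zero : ch 0 = 1 := by
  unfold ch
  rw [ZMod.val_zero, pow_zero]

lemma h_one {h : ℕ → ZMod 3} (hadd : ∀ m n : ℕ, m ≠ 0 → n ≠ 0 → h (m * n) = h m + h n) :
    h 1 = 0 := by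
  have := hadd 1 1 one_ne_zero one_ne_zero
  rw [mul_one] at this
  exact left_eq_add.1 this

lemma cm_ch {h : ℕ → ZMod 3} (hadd : ∀ m n : ℕ, m ≠ 0 → n ≠ 0 → h (m * n) = h m + h n) :
    Cm 3 (fun z : Gi => ch (h (nm z))) where
  pos := by norm_num
  mul := by
    intro z w hz hw
    show ch (h (nm (z * w))) = ch (h (nm z)) * ch (h (nm w))
    rw [nm_mul, hadd _ _ (nm_pos hD01 hz).ne' (nm_pos hD01 hw).ne', ch_add]
  pow := fun z => ch_pow _

/-- result B: additive functions modulo `3` at `n^2+1` -/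
theorem finb (hscb : S_SCB) (hhit : S_HITB) (hbsc : S_BSC) (hfin : S_FIN) (hub : S_UB)
    {h : ℕ → ZMod 3} (hadd : ∀ m n : ℕ, m ≠ 0 → n ≠ 0 → h (m * n) = h m + h n) {p : ℕ}
    (hp : p.Prime) (h4 : p % 4 = 1) (hne : h p ≠ 0) (r : ZMod 3) :
    Con (fun n => h (n ^ 2 + 1).natAbs = r) := by
  apply hfin
  obtain ⟨C₀, h1⟩ := hhit h hadd r
  obtain ⟨u, hu1, hu2, hu3, hu4⟩ := hub p hp h4
  have hne' : ch (h (nm u)) ≠ 1 := by
    rw [hu2, ← ch_zero]
    exact fun hh => hne (ch_inj hh)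
  have hneg : (fun z : Gi => ch (h (nm z))) (-1) = 1 := by
    show ch (h (nm (-1 : Gi))) = 1
    rw [nm_neg, nm_one, h_one hadd, ch_zero]
  have hab : ch (1 - r) ≠ ch (2 - r) := by
    intro hh
    have := ch_inj hh
    have h5 : (1 : ZMod 3) = 2 := sub_left_inj.1 this
    exact absurd h5 (by decide)
  obtain ⟨ε, hε, X₀, h2⟩ := hscb (fun z : Gi => ch (h (nm z))) (cm_ch hadd) hneg
    ⟨u, hu1, hne', hu3, hu4⟩ (ch (1 - r)) (ch (2 - r)) (ch_pow _) (ch_pow _) hab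
  obtain ⟨h3, h5⟩ := hbsc (fun n => h (n ^ 2 + 1).natAbs = r) C₀
  refine h5 ⟨ε, hε, max C₀ X₀, fun X hX => ?_⟩
  refine h2 X _ ((le_max_right _ _).trans hX) (h3 X) ?_
  intro z z' hz hz' ha hb
  have ha' : h (nm z) + r = 1 := by rw [ch_inj ha]; ring
  have hb' : h (nm z') + r = 2 := by rw [ch_inj hb]; ring
  exact h1 X ((le_max_left _ _).trans hX) z z' hz hz' ha' hb'

end Pool.Agent.W251.GX
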