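import Pool.Agent.W78.GA.All
import Pool.Agent.W327.GA.Ang1
import Pool.Agent.W56.FP.A0Q
import Pool.Agent.W803.GX.Dec
import Pool.Agent.W565.GX.Mom
import Pool.Agent.W179.GX.Mom
import Pool.Agent.W369.GX.Cell
import Pool.Agent.W143.GX.Mri
import Pool.Agent.W305.GX.Pair
import Pool.Agent.W880.GX.PD
import Pool.Agent.W414.GX.Betw
import Pool.Agent.W154.GX.A0U
import Pool.Agent.W369.GX.Sca
import Pool.Agent.W398.GX.Scb
import Pool.Agent.W766.GX.Hita
import Pool.Agent.W494.GX.HITB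
import Pool.Agent.W940.GX.Fin
import Pool.Agent.W376.GX.UB
import Pool.Agent.W251.GX.Fin

/-!
Project GX (helper251): all parts together.
-/

set_option autoImplicit false

namespace Pool.Agent.W251.GX

open Finset Filter
open Pool.Agent.W78.GA (Qd nm prim dt ip)
open Pool.Agent.W84.FP (Gi cj)

variable {t c : ℤ}

/-- the Matomaki-Radziwill theorem for `F` and the angles of an imaginary quadratic order -/
theorem mr (hD : t ^ 2 < 4 * c) : S_MR t c := by
  have hang1 : Pool.Agent.W78.GA.S_ANG1 t c := Pool.Agent.W327.GA.ang1 hD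
  have hlat : Pool.Agent.W78.GA.S_LAT t c := Pool.Agent.W45.GA.lat hD
  have hred : Pool.Agent.W78.GA.S_RED t c := Pool.Agent.W322.GA.red hD
  have hlati : Pool.Agent.W78.GA.S_LATI t c := Pool.Agent.W322.GA.lati_of hD hlat hred
  have hls : Pool.Agent.W78.GA.S_LS t c := Pool.Agent.W327.GA.ls hD
  have hang : Pool.Agent.W78.GA.S_ANG t c :=
    Pool.Agent.W397.GA.ang_of hang1 (Pool.Agent.W397.GA.ang2 hD)
  have hangi : Pool.Agent.W78.GA.S_ANGI t c := Pool.Agent.W322.GA.angi_of hD hang hred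
  have hmach : Pool.Agent.W78.GA.S_MACH := Pool.Agent.W586.GA.mach_of Pool.Agent.W240.GA.leva
    Pool.Agent.W240.GA.levb Pool.Agent.W397.GA.s_cnt Pool.Agent.W586.GA.upart
  exact mr_of hD hmach (Pool.Agent.W573.GA.ele hD)
    (Pool.Agent.W803.GX.dec hD hlati (Pool.Agent.W999.GA.tk_of hD hlat hlati))
    (Pool.Agent.W565.GX.mom0 hD hls hlat) (Pool.Agent.W565.GX.momp hD hls)
    (Pool.Agent.W179.GX.mom hD hls hlat hlati)
    (Pool.Agent.W191.GA.sparse_of hD hang hlat) hls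
    (Pool.Agent.W369.GX.cell hD
      (Pool.Agent.W194.GA.sele_of hD hangi hlat (Pool.Agent.W109.GA.selb hD))) hlat

theorem pd_all (hD : t ^ 2 < 4 * c) : S_PD t c := by
  have hlat : Pool.Agent.W78.GA.S_LAT t c := Pool.Agent.W45.GA.lat hD
  exact Pool.Agent.W880.GX.pd hD (Pool.Agent.W305.GX.pair hD (Pool.Agent.W803.GA.sect hD) hlat)
    (Pool.Agent.W143.GX.mri (mr hD))
    (Pool.Agent.W565.GX.mom0 hD (Pool.Agent.W327.GA.ls hD) hlat)

theorem a0u : S_A0U := Pool.Agent.W154.GX.a0u Pool.Agent.W56.FP.A0Q.a0q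

theorem sca : S_SCA := Pool.Agent.W369.GX.sca (pd_all hD01) a0u

theorem scb : S_SCB := Pool.Agent.W398.GX.scb (pd_all hD01) a0u

theorem fin : S_FIN := by
  have hD := hD01
  have hlat : Pool.Agent.W78.GA.S_LAT 0 1 := Pool.Agent.W45.GA.lat hD
  have hred : Pool.Agent.W78.GA.S_RED 0 1 := Pool.Agent.W322.GA.red hD
  have hlati : Pool.Agent.W78.GA.S_LATI 0 1 := Pool.Agent.W322.GA.lati_of hD hlat hred
  exact Pool.Agent.W940.GX.fin (Pool.Agent.W29.GA.mult hD)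
    (Pool.Agent.W29.GA.typ_of hD hlat hlati) (Pool.Agent.W29.GA.ve hD) (Pool.Agent.W78.GA.sqb hD)
    hlat

/-- result A for the Gaussian integers as a quadratic order -/
theorem resA {N : ℕ} {F : Gi → ℂ} (hF : Cm N F) (hneg : F (-1) = 1)
    (hu : ∃ u : Gi, prim u ∧ F u ≠ 1) (s : ℂ) : Con (fun n => F ⟨n, 1⟩ ≠ s) :=
  fina sca (Pool.Agent.W766.GX.Hita.hita (Pool.Agent.W414.GX.betw hD01))
    (Pool.Agent.W940.GX.bsc (Pool.Agent.W45.GA.lat hD01)) fin hF hneg hu s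

/-- result B -/
theorem resB {h : ℕ → ZMod 3} (hadd : ∀ m n : ℕ, m ≠ 0 → n ≠ 0 → h (m * n) = h m + h n) {p : ℕ}
    (hp : p.Prime) (h4 : p % 4 = 1) (hne : h p ≠ 0) (r : ZMod 3) :
    Con (fun n => h (n ^ 2 + 1).natAbs = r) :=
  finb scb (Pool.Agent.W494.GX.hitb (Pool.Agent.W414.GX.betw hD01))
    (Pool.Agent.W940.GX.bsc (Pool.Agent.W45.GA.lat hD01)) fin Pool.Agent.W376.GX.ub hadd hp h4 hne r

end Pool.Agent.W251.GX
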