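import Pool.Agent.W251.GX.Defs
import Pool.Agent.W78.GA.MR

/-!
Project GX (helper251): the Matomaki-Radziwill theorem for a completely multiplicative function `F`
and all frequencies, from the abstract machine and its inputs (port of `W84/FP/MR.lean`).
-/

set_option autoImplicit false

namespace Pool.Agent.W251.GX

open Finset Filter
open Pool.Agent.H376R2.MR hiding GG
open Pool.Agent.W78.GA hiding S_DEC S_MOM0 S_MOMP S_MOM S_MR S_PAIR S_BETW GG PE

variable {t c : ℤ}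

lemma Cm.norm {N : ℕ} {F : Qd t c → ℂ} (h : Cm N F) (z : Qd t c) : ‖F z‖ = 1 :=
  Complex.norm_eq_one_of_pow_eq_one (h.pow z) (Nat.one_le_iff_ne_zero.1 h.pos)

lemma Cm.norm_le {N : ℕ} {F : Qd t c → ℂ} (h : Cm N F) (z : Qd t c) : ‖F z‖ ≤ 1 := (h.norm z).le

lemma Cm.ne {N : ℕ} {F : Qd t c → ℂ} (h : Cm N F) (z : Qd t c) : F z ≠ 0 := by
  intro h0
  have := h.norm z
  rw [h0, norm_zero] at this
  exact zero_ne_one this

lemma Cm.one {N : ℕ} {F : Qd t c → ℂ} (h : Cm N F) (hD : t ^ 2 < 4 * c) : F 1 = 1 := by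
  have h1 : (1 : Qd t c) ≠ 0 := by
    rw [← one_le_nm hD, nm_one]
  have h2 := h.mul 1 1 h1 h1
  rw [mul_one] at h2
  have h3 : F 1 * (F 1 - 1) = 0 := by linear_combination -h2
  rcases mul_eq_zero.1 h3 with h4 | h4
  · exact absurd h4 (h.ne 1)
  · exact sub_eq_zero.1 h4

theorem mr_of (hD : t ^ 2 < 4 * c) (hmach : S_MACH) (hele : S_ELE t c) (hdec : S_DEC t c)
    (hmom0 : S_MOM0 t c) (hmomp : S_MOMP t c) (hmom : S_MOM t c) (hsp : S_SPARSE t c)
    (hls : S_LS t c) (hcell : S_CELL t c) (hlat : S_LAT t c) : S_MR t c := by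
  classical
  intro N F hF
  obtain ⟨Ap, Bp, M, E, ρ, ϖ, hE⟩ := hele
  refine hmach (PF F M ϖ) (mE M) (GF F) ?_
  refine
    { m_nonneg := ?_, P_le := ?_, rich := hE.rich, cell_avg := hcell Ap Bp M E ρ ϖ hE N F hF,
      dec := ?_, mom_zero := ?_, momP := hmomp Ap Bp M E ρ ϖ hE F hF.norm_le,
      mom := hmom Ap Bp M E ρ ϖ hE F hF.norm_le, sparse := ?_ }
  · intro H v
    unfold mE
    exact sum_nonneg fun p _ => by positivity
  · intro H v k
    unfold PF mE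
    rw [norm_neg]
    refine (norm_sum_le _ _).trans (sum_le_sum fun m _ => ?_)
    rw [norm_div, Complex.norm_natCast, norm_mul, hF.norm, one_mul]
    exact div_le_div_of_nonneg_right (norm_ps_le _ _) (Nat.cast_nonneg _)
  · obtain ⟨C₁, hC₁, h1⟩ := hdec Ap Bp M E ρ ϖ hE N F hF
    obtain ⟨C₂, hC₂, h2⟩ := hls
    obtain ⟨β, hβ, C₃, hC₃, Z₀, h3⟩ := hsp
    have he : 0 < Real.exp 2 := Real.exp_pos _
    refine ⟨C₂ * (1 + Real.exp 2) * C₁ + C₃ * C₁, by positivity, β, hβ, Z₀, ?_⟩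
    intro H v₀ v₁ hH hHv hW Y hY
    obtain ⟨s, a, hs, hG, ha⟩ := h1 H v₀ v₁ hH hHv hW Y hY
    have hY1 : 1 ≤ Y := by
      refine le_trans ?_ hY
      exact Real.one_le_exp (by positivity)
    have hY0 : 0 < Y := by linarith
    have hB : 0 ≤ 1 / (∑ v ∈ Ico v₀ v₁, mE M H v) + 1 / (H : ℝ) ^ 2 := by positivity
    refine ⟨fun k => DPG s a k, hG, ?_, ?_⟩
    · intro K hK hKY
      have h4 := h2 (Real.exp 2 * Y) K s a (by
        have : 1 ≤ Real.exp 2 := Real.one_le_exp (by norm_num)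
        nlinarith) hK hs
      have h5 : 0 ≤ ∑ z ∈ s, ‖a z‖ ^ 2 := sum_nonneg fun _ _ => by positivity
      calc ∑ k ∈ FK K, ‖DPG s a k‖ ^ 2
          ≤ C₂ * (K + Real.exp 2 * Y) * ∑ z ∈ s, ‖a z‖ ^ 2 := h4
        _ ≤ C₂ * (Y + Real.exp 2 * Y) * ∑ z ∈ s, ‖a z‖ ^ 2 := by gcongr
        _ = C₂ * (1 + Real.exp 2) * (Y * ∑ z ∈ s, ‖a z‖ ^ 2) := by ring
        _ ≤ C₂ * (1 + Real.exp 2) *
            (C₁ * (1 / (∑ v ∈ Ico v₀ v₁, mE M H v) + 1 / (H : ℝ) ^ 2)) := by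
            gcongr
        _ ≤ _ := by
            have : 0 ≤ C₃ * C₁ * (1 / (∑ v ∈ Ico v₀ v₁, mE M H v) + 1 / (H : ℝ) ^ 2) := by
              positivity
            linarith
    · intro hZ U hU hcard
      have h4 := h3 Y hZ U hU hcard s a (fun z hz =>
        ⟨(one_le_nm hD).2 (prim_ne_zero (hs z hz).1), (hs z hz).2⟩)
      calc ∑ k ∈ U, ‖DPG s a k‖ ^ 2
          ≤ C₃ * Y * ∑ z ∈ s, ‖a z‖ ^ 2 := h4
        _ = C₃ * (Y * ∑ z ∈ s, ‖a z‖ ^ 2) := by ring
        _ ≤ C₃ * (C₁ * (1 / (∑ v ∈ Ico v₀ v₁, mE M H v) + 1 / (H : ℝ) ^ 2)) := by gcongr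
        _ ≤ _ := by
            have : 0 ≤ C₂ * (1 + Real.exp 2) * C₁ *
                (1 / (∑ v ∈ Ico v₀ v₁, mE M H v) + 1 / (H : ℝ) ^ 2) := by positivity
            linarith
  · obtain ⟨C, hC, h⟩ := hmom0
    exact ⟨C, hC, fun K Z hZ hK => h F hF.norm_le K Z hZ hK⟩
  · obtain ⟨β, hβ, C₃, hC₃, Z₀, h3⟩ := hsp
    obtain ⟨C₄, hC₄, h4⟩ := win_mass hD hlat
    have he2 : 0 < Real.exp 2 := Real.exp_pos _
    refine ⟨C₃ * (Real.exp 2 * C₄), by positivity, β, hβ, max Z₀ (Real.exp 3), ?_⟩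
    intro Z hZ U hU hcard
    have hZ0 : Z₀ ≤ Z := (le_max_left _ _).trans hZ
    have hZ3 : Real.exp 3 ≤ Z := (le_max_right _ _).trans hZ
    have hZpos : 0 < Z := (Real.exp_pos _).trans_le hZ3
    have he12 : Real.exp 1 ≤ Real.exp 2 := Real.exp_le_exp.2 (by norm_num)
    set s := (pball t c (Real.exp 1 * Z)).filter (fun z => bg Z z ≠ 0) with hs
    have hsw : s ⊆ win t c Z := by
      intro z hz
      rw [hs, mem_filter, mem_pball hD] at hz
      have hz0 := prim_ne_zero hz.1.1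
      have h5 := bg_ne hD hZpos hz0 hz.2
      rw [mem_win hD]
      refine ⟨(one_le_nm hD).2 hz0, le_trans ?_ h5.1, h5.2.trans ?_⟩
      · exact div_le_div_of_nonneg_left hZpos.le (Real.exp_pos _) he12
      · exact mul_le_mul_of_nonneg_right he12 hZpos.le
    have hGA : ∀ k : ℤ, GF F Z k = DPG s (fun z => F z * (bg Z z : ℂ)) k := by
      intro k
      unfold GF DPG
      symm
      refine Finset.sum_filter_of_ne fun z _ hne h0 => ?_
      apply hne
      simp [h0]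
    have h5 := h3 Z hZ0 U hU hcard s (fun z => F z * (bg Z z : ℂ)) (fun z hz => by
      have := hsw hz
      rw [mem_win hD] at this
      exact ⟨this.1, this.2.2⟩)
    have h6 : Z * ∑ z ∈ s, ‖F z * (bg Z z : ℂ)‖ ^ 2 ≤ Real.exp 2 * C₄ := by
      rw [Finset.mul_sum]
      calc ∑ z ∈ s, Z * ‖F z * (bg Z z : ℂ)‖ ^ 2
          ≤ ∑ z ∈ s, Real.exp 2 * (1 / (nm z : ℝ)) := by
            refine sum_le_sum fun z hz => ?_
            have hzw := hsw hz
            rw [mem_win hD] at hzw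
            have hn : (0 : ℝ) < nm z := by exact_mod_cast hzw.1
            have h7 : ‖F z * (bg Z z : ℂ)‖ ≤ 1 / nm z := by
              rw [norm_mul, hF.norm, one_mul, Complex.norm_real, Real.norm_eq_abs,
                abs_of_nonneg (bg_nonneg _ _)]
              exact bg_le _ _
            have h9 : Z ≤ Real.exp 2 * nm z := by
              have := hzw.2.1
              rw [div_le_iff₀ he2] at this
              linarith
            calc Z * ‖F z * (bg Z z : ℂ)‖ ^ 2 ≤ (Real.exp 2 * nm z) * (1 / nm z) ^ 2 := by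
                  gcongr
              _ = Real.exp 2 * (1 / (nm z : ℝ)) := by field_simp
        _ = Real.exp 2 * ∑ z ∈ s, 1 / (nm z : ℝ) := by rw [Finset.mul_sum]
        _ ≤ Real.exp 2 * ∑ z ∈ win t c Z, 1 / (nm z : ℝ) := by
            gcongr
        _ ≤ Real.exp 2 * C₄ := by
            gcongr
            exact h4 Z hZ3
    calc ∑ k ∈ U, ‖GF F Z k‖ ^ 2
        = ∑ k ∈ U, ‖DPG s (fun z => F z * (bg Z z : ℂ)) k‖ ^ 2 := by
          refine sum_congr rfl fun k _ => by rw [hGA k]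
      _ ≤ C₃ * Z * ∑ z ∈ s, ‖F z * (bg Z z : ℂ)‖ ^ 2 := h5
      _ = C₃ * (Z * ∑ z ∈ s, ‖F z * (bg Z z : ℂ)‖ ^ 2) := by ring
      _ ≤ C₃ * (Real.exp 2 * C₄) := by gcongr


end Pool.Agent.W251.GX
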